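import Pool.Agent.H.MP_ad338c_an.B

set_option autoImplicit false

open Filter Set Topology Equiv

namespace Pool.Agent.H.MP_f6bc98_an

open Pool.Agent.H.MP_ad338c_an (S tr arc carc freq zsmul_eq_zero norm_coe_small coe_zero_small
  isOpen_arc isClosed_carc arc_sub norm_carc FS fin_of_eq)

noncomputable def hf : S := ((1 / 2 : ℝ) : S)

lemma hf_add : hf + hf = 0 := by
  rw [hf, ← AddCircle.coe_add]
  norm_num

lemma hf_ne : hf ≠ 0 := fun h => by
  have := coe_zero_small (t := 1 / 2) (by norm_num [abs_of_pos]) h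
  norm_num at this

lemma neg_hf : -hf = hf := neg_eq_of_add_eq_zero_left hf_add

def T2 (δ : S) : Prop := δ = 0 ∨ δ = hf

lemma T2.add {a b : S} (ha : T2 a) (hb : T2 b) : T2 (a + b) := by
  rcases ha with rfl | rfl <;> rcases hb with rfl | rfl <;> simp [T2, hf_add]

lemma T2.add_self {a : S} (ha : T2 a) : a + a = 0 := by
  rcases ha with rfl | rfl <;> simp [hf_add]

lemma exists_rep (x : S) : ∃ t : ℝ, 0 ≤ t ∧ t < 1 ∧ (t : S) = x := by
  obtain ⟨t, ht, h⟩ := AddCircle.eq_coe_Ico (p := (1 : ℝ)) x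
  exact ⟨t, ht.1, ht.2, h⟩

lemma coe_inj {s t : ℝ} (hs0 : 0 ≤ s) (hs1 : s < 1) (ht0 : 0 ≤ t) (ht1 : t < 1)
    (h : (s : S) = t) : s = t :=
  (AddCircle.coe_eq_coe_iff_of_mem_Ico (p := (1 : ℝ)) (a := 0) ⟨hs0, by linarith⟩
    ⟨ht0, by linarith⟩).1 h

lemma T2_of {z : S} (h : z + z = 0) : T2 z := by
  obtain ⟨t, h0, h1, rfl⟩ := exists_rep z
  rw [← AddCircle.coe_add] at h
  by_cases ht : t < 1 / 2
  · have := coe_inj (s := t + t) (t := 0) (by linarith) (by linarith) le_rfl one_pos (by simpa using h)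
    left
    have : t = 0 := by linarith
    simp [this]
  · have h2 : ((t + t - 1 : ℝ) : S) = ((0 : ℝ) : S) := by
      rw [AddCircle.coe_sub, h]; simp
    have := coe_inj (by linarith) (by linarith) le_rfl one_pos h2
    right
    have : t = 1 / 2 := by linarith
    rw [this, hf]

open Classical in
noncomputable def e (x : S) : S := if x ∈ ((↑) : ℝ → S) '' Ico 0 (1 / 2) then 0 else hf

lemma e_T2 (x : S) : T2 (e x) := by
  unfold e; split_ifs <;> simp [T2]

lemma e_lo {t : ℝ} (h0 : 0 ≤ t) (h1 : t < 1 / 2) : e (t : S) = 0 := if_pos ⟨t, ⟨h0, h1⟩, rfl⟩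

lemma e_hi {t : ℝ} (h0 : 1 / 2 ≤ t) (h1 : t < 1) : e (t : S) = hf := by
  refine if_neg ?_
  rintro ⟨s, hs, h⟩
  have := coe_inj hs.1 (by linarith [hs.2]) (by linarith) h1 h
  linarith [hs.2]

lemma coe_add_one (t : ℝ) : ((t + 1 : ℝ) : S) = t := by simp

lemma e_add_hf (x : S) : e (x + hf) = e x + hf := by
  obtain ⟨t, h0, h1, rfl⟩ := exists_rep x
  by_cases ht : t < 1 / 2
  · rw [e_lo h0 ht, hf, ← AddCircle.coe_add, e_hi (by linarith) (by linarith), zero_add, hf]
  · rw [e_hi (not_lt.1 ht) h1, hf_add, hf, ← AddCircle.coe_add,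
      show t + 1 / 2 = (t - 1 / 2) + 1 by ring, coe_add_one, e_lo (by linarith) (by linarith)]

lemma e_neg {x : S} (hx : ¬ T2 x) : e (-x) = e x + hf := by
  obtain ⟨t, h0, h1, rfl⟩ := exists_rep x
  have a0 : t ≠ 0 := by rintro rfl; exact hx (Or.inl (by simp))
  have a1 : t ≠ 1 / 2 := by rintro rfl; exact hx (Or.inr rfl)
  have a2 : 0 < t := lt_of_le_of_ne h0 a0.symm
  rw [← AddCircle.coe_neg, ← coe_add_one (-t)]
  rcases lt_or_gt_of_ne a1 with ht | ht
  · rw [e_lo h0 ht, e_hi (by linarith) (by linarith), zero_add]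
  · rw [e_hi ht.le h1, hf_add, e_lo (by linarith) (by linarith)]

lemma e_loc {x : S} (hx : ¬ T2 x) : ∀ᶠ y in 𝓝 x, e y = e x := by
  obtain ⟨t, h0, h1, rfl⟩ := exists_rep x
  have a0 : t ≠ 0 := by rintro rfl; exact hx (Or.inl (by simp))
  have a1 : t ≠ 1 / 2 := by rintro rfl; exact hx (Or.inr rfl)
  have a2 : 0 < t := lt_of_le_of_ne h0 a0.symm
  rcases lt_or_gt_of_ne a1 with ht | ht
  · filter_upwards [(isOpen_arc 0 (1 / 2)).mem_nhds ⟨t, ⟨a2, ht⟩, rfl⟩]
    rintro _ ⟨s, hs, rfl⟩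
    rw [e_lo h0 ht, e_lo hs.1.le hs.2]
  · filter_upwards [(isOpen_arc (1 / 2) 1).mem_nhds ⟨t, ⟨ht, h1⟩, rfl⟩]
    rintro _ ⟨s, hs, rfl⟩
    rw [e_hi ht.le h1, e_hi hs.1.le hs.2]

noncomputable def d (u v x : S) : S := e (x - u) + e (x - v)

lemma d_T2 (u v x : S) : T2 (d u v x) := (e_T2 _).add (e_T2 _)

lemma d_add (u v x : S) {δ : S} (h : T2 δ) : d u v (x + δ) = d u v x := by
  rcases h with rfl | rfl
  · simp
  · unfold d
    rw [show x + hf - u = x - u + hf by abel, show x + hf - v = x - v + hf by abel, e_add_hf,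
      e_add_hf]
    have := hf_add
    rw [add_add_add_comm, this, add_zero]

noncomputable def L (u v : S) : Perm S :=
  Function.Involutive.toPerm (fun x => x + d u v x) (fun x => by
    simp only [d_add u v x (d_T2 u v x)]
    rw [add_assoc, (d_T2 u v x).add_self, add_zero])

lemma L_apply (u v x : S) : L u v x = x + d u v x := rfl

lemma L_sq (u v : S) : L u v * L u v = 1 := by
  ext x
  exact (L u v).left_inv x

lemma L_comm (u v u' v' : S) : L u v * L u' v' = L u' v' * L u v := by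
  ext x
  simp only [Perm.mul_apply, L_apply, d_add _ _ _ (d_T2 _ _ _)]
  abel

lemma L_split (u v w : S) : L u v = L w u * L w v := by
  ext x
  simp only [Perm.mul_apply, L_apply, d_add _ _ _ (d_T2 _ _ _)]
  unfold d
  have := (e_T2 (x - w)).add_self
  rw [show x + (e (x - w) + e (x - v)) + (e (x - w) + e (x - u))
    = x + (e (x - u) + e (x - v)) + (e (x - w) + e (x - w)) by abel, this, add_zero]

lemma L_symm (u v : S) : L u v = L v u := by
  ext x
  simp only [L_apply, d, add_comm]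

lemma L_conj (u v c : S) : L (u - c) (v - c) = tr (-c) * L u v * tr c := by
  ext x
  simp only [Perm.mul_apply, L_apply, d, Equiv.coe_addRight]
  rw [show x - (u - c) = x + c - u by abel, show x - (v - c) = x + c - v by abel]
  abel

lemma L_tr (u v : S) {δ : S} (h : T2 δ) : L u v * tr δ = tr δ * L u v := by
  ext x
  simp only [Perm.mul_apply, L_apply, Equiv.coe_addRight, d_add _ _ _ h]
  abel

lemma T2_fin : {x : S | T2 x}.Finite := (Set.toFinite {0, hf}).subset fun _ h => h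

lemma L_neg (u : S) : {x | L 0 (-u) x ≠ (Equiv.neg S * L 0 u * Equiv.neg S) x}.Finite := by
  refine (T2_fin.union (T2_fin.preimage (f := fun x => x + u)
    (add_left_injective u).injOn)).subset ?_
  intro x hx
  by_contra h
  simp only [mem_union, mem_ofPred_eq, mem_preimage, not_or] at h
  apply hx
  simp only [Perm.mul_apply, L_apply, Equiv.neg_apply, d, sub_zero, sub_neg_eq_add]
  rw [show -x - u = -(x + u) by abel, e_neg h.1, e_neg h.2, add_add_add_comm, hf_add, add_zero,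
    neg_add, neg_neg]
  congr 1
  exact (neg_eq_of_add_eq_zero_left ((e_T2 _).add (e_T2 _)).add_self).symm

lemma const_of_succ {X : Type*} (g : ℤ → X) (h : ∀ n, g (n + 1) = g n) (n m : ℤ) : g n = g m := by
  have : ∀ n, g n = g 0 := by
    intro n
    induction n using Int.induction_on with
    | zero => rfl
    | succ i ih => rw [h, ih]
    | pred i ih => rw [← ih, ← h, sub_add_cancel]
  rw [this n, this m]

lemma conn {X : Type*} (F : ℤ × ℤ → X)
    (h : ∀ᶠ p in cofinite, F (p + (1, 0)) = F p ∧ F (p + (0, 1)) = F p) :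
    ∃ x, ∀ᶠ p in cofinite, F p = x := by
  have hfin : {p | ¬(F (p + (1, 0)) = F p ∧ F (p + (0, 1)) = F p)}.Finite := h
  obtain ⟨R, hR⟩ := (hfin.image fun p : ℤ × ℤ => |p.1| + |p.2|).bddAbove
  obtain ⟨r, hr0, hr⟩ : ∃ r : ℤ, 0 ≤ r ∧ R < r := ⟨|R| + 1, by positivity, by
    linarith [le_abs_self R]⟩
  have key : ∀ m n : ℤ, r ≤ |m| ∨ r ≤ |n| →
      F (m + 1, n) = F (m, n) ∧ F (m, n + 1) = F (m, n) := by
    intro m n hmn
    by_contra hc
    have : |m| + |n| ≤ R := hR ⟨(m, n), by simpa using hc, rfl⟩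
    rcases hmn with h | h <;> linarith [abs_nonneg m, abs_nonneg n]
  have hv : ∀ m, r ≤ |m| → ∀ n n', F (m, n) = F (m, n') := fun m hm =>
    const_of_succ (fun n => F (m, n)) fun n => (key m n (Or.inl hm)).2
  have hh : ∀ n, r ≤ |n| → ∀ m m', F (m, n) = F (m', n) := fun n hn =>
    const_of_succ (fun m => F (m, n)) fun m => (key m n (Or.inr hn)).1
  refine ⟨F (r, r), ((finite_Ioo (-r) r).prod (finite_Ioo (-r) r)).subset ?_⟩
  rintro ⟨m, n⟩ hp
  by_contra hc
  apply hp
  by_cases hm : r ≤ |m|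
  · exact (hv m hm n r).trans (hh r (le_abs_self r) m r)
  · have hn : r ≤ |n| := by
      by_contra hn
      exact hc ⟨abs_lt.1 (not_le.1 hm), abs_lt.1 (not_le.1 hn)⟩
    exact (hh n hn m r).trans (hv r (le_abs_self r) n r)

end Pool.Agent.H.MP_f6bc98_an
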