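import Pool.Agent.H.MP_f6bc98_an.A

set_option autoImplicit false

open Filter Set Topology Equiv

namespace Pool.Agent.H.MP_f6bc98_an

open Pool.Agent.H.MP_ad338c_an (S tr arc carc freq zsmul_eq_zero norm_coe_small coe_zero_small
  isOpen_arc isClosed_carc arc_sub norm_carc FS fin_of_eq)

def lam (α β : S) (p : ℤ × ℤ) : S := p.1 • α + p.2 • β

lemma lam_add (α β : S) (p q : ℤ × ℤ) : lam α β (p + q) = lam α β p + lam α β q := by
  simp only [lam, Prod.fst_add, Prod.snd_add, add_smul]; abel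

lemma lam_neg (α β : S) (p : ℤ × ℤ) : lam α β (-p) = -lam α β p := by
  simp only [lam, Prod.fst_neg, Prod.snd_neg, neg_smul]; abel

lemma lam_zero (α β : S) : lam α β 0 = 0 := by simp [lam]

structure Ctx (α β : S) (H : Subgroup (Perm S)) (σ : Perm S → Perm S) : Prop where
  ind : ∀ p, lam α β p = 0 → p = 0
  mul : ∀ f ∈ H, ∀ g ∈ H, σ (f * g) = σ f * σ g
  near : ∀ f ∈ H, {x | σ f x ≠ f x}.Finite
  fin : ∀ f : Perm S, {x | f x ≠ x}.Finite → f ∈ H ∧ σ f = 1
  trm : ∀ p, tr (lam α β p) ∈ H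
  trh : tr hf ∈ H
  neg : Equiv.neg S ∈ H
  lm : ∀ p, L 0 (lam α β p) ∈ H

variable {α β : S} {H : Subgroup (Perm S)} {σ : Perm S → Perm S}

lemma Ctx.one (c : Ctx α β H σ) : σ 1 = 1 := (c.fin 1 (by simp)).2

lemma Ctx.app (c : Ctx α β H σ) {f g : Perm S} (hf : f ∈ H) (hg : g ∈ H) (y : S) :
    σ (f * g) y = σ f (σ g y) := by rw [c.mul f hf g hg]; rfl

lemma Ctx.comm (c : Ctx α β H σ) {f g : Perm S} (hf : f ∈ H) (hg : g ∈ H) (h : f * g = g * f)
    (y : S) : σ f (σ g y) = σ g (σ f y) := by rw [← c.app hf hg, h, c.app hg hf]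

lemma tr_add (a b : S) : tr (a + b) = tr a * tr b := by ext x; simp; abel

lemma tr_comm (a b : S) : tr a * tr b = tr b * tr a := by rw [← tr_add, ← tr_add, add_comm]

lemma tr_zero : tr 0 = 1 := by ext x; simp

lemma Ctx.trT (c : Ctx α β H σ) {δ : S} (h : T2 δ) : tr δ ∈ H := by
  rcases h with rfl | rfl
  · rw [tr_zero]; exact H.one_mem
  · exact c.trh

lemma Ctx.Lm (c : Ctx α β H σ) (p q : ℤ × ℤ) : L (lam α β p) (lam α β q) ∈ H := by
  rw [L_split _ _ 0]
  exact H.mul_mem (c.lm p) (c.lm q)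

lemma Ctx.lam_inj (c : Ctx α β H σ) : Function.Injective (lam α β) := by
  intro p q h
  have := c.ind (p + -q) (by rw [lam_add, lam_neg, h, add_neg_cancel])
  exact add_neg_eq_zero.1 this

lemma Ctx.ev (c : Ctx α β H σ) {E : Set S} (hE : E.Finite) (z : S) :
    ∀ᶠ p in cofinite, z + lam α β p ∉ E :=
  (hE.preimage (f := fun p => z + lam α β p)
    ((add_right_injective z).comp c.lam_inj).injOn).compl_mem_cofinite

lemma Ctx.ev_std (c : Ctx α β H σ) {f : Perm S} (hf : f ∈ H) (z : S) :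
    ∀ᶠ p in cofinite, σ f (z + lam α β p) = f (z + lam α β p) :=
  (c.ev (c.near f hf) z).mono fun _ h => by simpa using h

def V (σ : Perm S → Perm S) (α β : S) (p : ℤ × ℤ) : Perm S := σ (tr (lam α β p))

lemma Ctx.V_add (c : Ctx α β H σ) (p q : ℤ × ℤ) (y : S) :
    V σ α β p (V σ α β q y) = V σ α β (p + q) y := by
  simp only [V]
  rw [lam_add, tr_add, c.app (c.trm p) (c.trm q)]

lemma Ctx.V_zero (c : Ctx α β H σ) (y : S) : V σ α β 0 y = y := by
  simp only [V]
  rw [lam_zero, tr_zero, c.one]; rfl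

lemma Ctx.V_tr (c : Ctx α β H σ) (p : ℤ × ℤ) {δ : S} (h : T2 δ) (y : S) :
    V σ α β p (σ (tr δ) y) = σ (tr δ) (V σ α β p y) :=
  c.comm (c.trm p) (c.trT h) (tr_comm _ _) y

lemma Ctx.exists_y (c : Ctx α β H σ) : ∃ y, ∀ᶠ p in cofinite, V σ α β p y = lam α β p := by
  obtain ⟨y, hy⟩ := conn (fun p => V σ α β (-p) (lam α β p)) (by
    filter_upwards [c.ev_std (c.trm (1, 0)) 0, c.ev_std (c.trm (0, 1)) 0] with p h1 h2
    simp only [zero_add, Equiv.coe_addRight] at h1 h2
    constructor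
    · rw [lam_add, ← h1]
      change V σ α β _ (V σ α β _ _) = _
      rw [c.V_add]; congr 2; abel
    · rw [lam_add, ← h2]
      change V σ α β _ (V σ α β _ _) = _
      rw [c.V_add]; congr 2; abel)
  refine ⟨y, hy.mono fun p hp => ?_⟩
  rw [← hp, c.V_add, add_neg_cancel, c.V_zero]

lemma ev_line {P : ℤ × ℤ → Prop} (h : ∀ᶠ p in cofinite, P p) {N : ℤ} (hN : N ≠ 0) :
    ∀ᶠ n : ℤ in atTop, P (n * N, 0) := by
  have hinj : Function.Injective fun n : ℤ => ((n * N, 0) : ℤ × ℤ) := fun n m h =>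
    mul_right_cancel₀ hN (congrArg Prod.fst h)
  exact atTop_le_cofinite (hinj.tendsto_cofinite.eventually h)

lemma ev_map {P : ℤ × ℤ → Prop} (h : ∀ᶠ p in cofinite, P p) {f : ℤ × ℤ → ℤ × ℤ}
    (hf : Function.Injective f) : ∀ᶠ p in cofinite, P (f p) := hf.tendsto_cofinite.eventually h

lemma Ctx.far (c : Ctx α β H σ) (u v : ℤ × ℤ) {p : ℤ × ℤ} {y z : S} (h : V σ α β p y = z)
    (h1 : σ (L (lam α β u) (lam α β v)) z = L (lam α β u) (lam α β v) z)
    (h2 : σ (tr hf) z = z + hf) :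
    σ (L (lam α β (u + -p)) (lam α β (v + -p))) y = σ (tr (d (lam α β u) (lam α β v) z)) y := by
  have h3 : σ (tr (d (lam α β u) (lam α β v) z)) z = z + d (lam α β u) (lam α β v) z := by
    rcases d_T2 (lam α β u) (lam α β v) z with h | h <;> rw [h]
    · rw [tr_zero, c.one]; simp
    · exact h2
  rw [lam_add, lam_add, lam_neg, ← sub_eq_add_neg, ← sub_eq_add_neg, L_conj, ← lam_neg,
    c.app (H.mul_mem (c.trm _) (c.Lm _ _)) (c.trm _), c.app (c.trm _) (c.Lm _ _)]
  change V σ α β (-p) (σ _ (V σ α β p y)) = _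
  rw [h, h1, L_apply, ← h3, c.V_tr _ (d_T2 _ _ _), ← h, c.V_add, neg_add_cancel, c.V_zero]

section
variable (c : Ctx α β H σ) {y : S} (hy : ∀ᶠ p in cofinite, V σ α β p y = lam α β p)
include c hy

lemma Ctx.free {p q : ℤ × ℤ} (h : V σ α β p y = V σ α β q y) : p = q := by
  obtain ⟨r, h1, h2⟩ := ((ev_map hy (add_left_injective p)).and
    (ev_map hy (add_left_injective q))).exists
  rw [← c.V_add, h, c.V_add, h2] at h1
  exact (add_left_cancel (c.lam_inj h1)).symm

lemma Ctx.neg_fix : σ (Equiv.neg S) y = y := by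
  obtain ⟨p, h1, h2, h3⟩ := (hy.and ((ev_map hy neg_injective).and (c.ev_std c.neg 0))).exists
  have h5 : Equiv.neg S * tr (lam α β p) = tr (lam α β (-p)) * Equiv.neg S := by
    ext x; simp [lam_neg]; abel
  have h6 := c.app c.neg (c.trm p) y
  rw [h5, c.app (c.trm _) c.neg] at h6
  change V σ α β (-p) _ = σ _ (V σ α β p y) at h6
  rw [zero_add] at h3
  rw [h1, h3, Equiv.neg_apply, ← lam_neg, ← h2] at h6
  exact (V σ α β (-p)).injective h6

lemma Ctx.hy' : ∀ᶠ p in cofinite, V σ α β p (σ (tr hf) y) = hf + lam α β p := by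
  filter_upwards [hy, c.ev_std c.trh 0] with p h1 h2
  rw [zero_add] at h2
  rw [c.V_tr p (Or.inr rfl), h1, h2, add_comm]; rfl

lemma Ctx.ne : σ (tr hf) y ≠ y := by
  intro h
  obtain ⟨p, h1, h2⟩ := (hy.and (c.hy' hy)).exists
  rw [h, h1] at h2
  exact hf_ne (by simpa using h2)

lemma Ctx.uniq {a b : S} (ha : T2 a) (hb : T2 b) (h : σ (tr a) y = σ (tr b) y) : a = b := by
  rcases ha with rfl | rfl <;> rcases hb with rfl | rfl
  · rfl
  · rw [tr_zero, c.one] at h; exact absurd h.symm (c.ne hy)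
  · rw [tr_zero, c.one] at h; exact absurd h (c.ne hy)
  · rfl

lemma Ctx.far0 (u v : ℤ × ℤ) : ∀ᶠ p in cofinite,
    σ (L (lam α β (u + -p)) (lam α β (v + -p))) y
      = σ (tr (d (lam α β u) (lam α β v) (lam α β p))) y := by
  filter_upwards [hy, c.ev_std (c.Lm u v) 0, c.ev_std c.trh 0] with p h1 h2 h3
  rw [zero_add] at h2 h3
  exact c.far u v h1 h2 h3

lemma Ctx.step3 (u : ℤ × ℤ) : ∃ δ, T2 δ ∧ σ (L 0 (lam α β u)) y = σ (tr δ) y := by
  obtain ⟨w, hw⟩ : ∃ w, w = σ (L 0 (lam α β u)) y := ⟨_, rfl⟩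
  rw [← hw]
  have hinv : σ (L 0 (lam α β u)) w = y := by
    rw [hw, ← c.app (c.lm u) (c.lm u), L_sq, c.one]; rfl
  have hcm : ∀ a b : ℤ × ℤ, ∀ δ, T2 δ → σ (L (lam α β a) (lam α β b)) y = σ (tr δ) y →
      σ (L (lam α β a) (lam α β b)) w = σ (tr δ) w := by
    intro a b δ hδ h
    rw [hw, c.comm (c.Lm a b) (c.lm u) (L_comm _ _ _ _), h,
      c.comm (c.lm u) (c.trT hδ) (L_tr _ _ hδ)]
  have hαinf : ¬ IsOfFinAddOrder α := by
    intro h
    obtain ⟨n, hn, h⟩ := isOfFinAddOrder_iff_zsmul_eq_zero.1 h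
    exact hn (congrArg Prod.fst (c.ind (n, 0) (by simp [lam, h])))
  by_cases hfree : ∀ n : ℤ, V σ α β (n, 0) w = w → n = 0
  · have hinj : Function.Injective fun n : ℤ => V σ α β (n, 0) w := by
      intro n m h
      have := hfree (-m + n) (by
        have h' : V σ α β (n, 0) w = V σ α β (m, 0) w := h
        have e1 : ((-m + n, 0) : ℤ × ℤ) = (-m, 0) + (n, 0) := by simp
        rw [e1, ← c.V_add, h', c.V_add]
        have e2 : ((-m, 0) : ℤ × ℤ) + (m, 0) = 0 := by simp
        rw [e2, c.V_zero])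
      omega
    obtain ⟨n0, hn0⟩ := eventually_atTop.1 (atTop_le_cofinite
      ((c.near _ (c.trm (1, 0))).preimage hinj.injOn).compl_mem_cofinite)
    obtain ⟨q, hq⟩ : ∃ q, q = V σ α β (n0, 0) w - lam α β (n0, 0) := ⟨_, rfl⟩
    have key : ∀ n ≥ n0, V σ α β (n, 0) w = q + lam α β (n, 0) := by
      intro n hn
      induction n, hn using Int.leInduction with
      | base => simp [hq]
      | succ n hn ih =>
        have h1 : V σ α β (1, 0) (V σ α β (n, 0) w) = V σ α β (n, 0) w + lam α β (1, 0) := by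
          simpa [V] using hn0 n hn
        have e1 : ((n + 1, 0) : ℤ × ℤ) = (1, 0) + (n, 0) := by simp [add_comm]
        rw [e1, ← c.V_add, h1, ih, lam_add]
        abel
    have hq2 : T2 q := by
      by_contra hq2
      obtain ⟨ε, hε, hb⟩ := Metric.eventually_nhds_iff.1 (e_loc hq2)
      obtain ⟨j, η, hη, hj⟩ := (freq hαinf (isOpen_arc 0 (min ε (1 / 2)))
        ⟨_, min ε (1 / 2) / 2, ⟨by positivity, half_lt_self (by positivity)⟩, rfl⟩ 0).exists
      have hη1 : η < ε := hη.2.trans_le (min_le_left _ _)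
      have hη2 : η < 1 / 2 := hη.2.trans_le (min_le_right _ _)
      have hj' : lam α β (j, 0) = η := by simp [lam, hj]
      obtain ⟨n, ⟨s, hs, hsn⟩, hn1, hn2, hn3, hn4⟩ := ((freq hαinf (isOpen_arc 0 η)
        ⟨_, η / 2, ⟨half_pos hη.1, half_lt_self hη.1⟩, rfl⟩ 0).and_eventually
        ((eventually_ge_atTop n0).and ((ev_line (c.far0 hy 0 (j, 0)) one_ne_zero).and
        ((ev_line (c.ev_std (c.Lm 0 (j, 0)) q) one_ne_zero).and
        (ev_line (c.ev_std c.trh q) one_ne_zero))))).exists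
      rw [mul_one] at hn2 hn3 hn4
      have hs' : lam α β (n, 0) = s := by simp [lam, hsn]
      have a1 := c.far 0 (j, 0) (key n hn1) hn3 hn4
      rw [hcm _ _ _ (d_T2 _ _ _) hn2, lam_zero, hj', hs'] at a1
      have a2 : d 0 η s = hf := by
        unfold d
        rw [sub_zero, e_lo hs.1.le (by linarith [hs.2]), zero_add, ← AddCircle.coe_sub,
          ← coe_add_one, e_hi (by linarith [hs.1]) (by linarith [hs.2])]
      have a3 : d 0 η (q + s) = 0 := by
        unfold d
        rw [hb (y := q + s - 0), hb (y := q + s - η), (e_T2 q).add_self]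
        · rw [dist_eq_norm, show q + s - η - q = (s : S) - η by abel, ← AddCircle.coe_sub]
          refine QuotientAddGroup.norm_mk_le_norm.trans_lt ?_
          rw [Real.norm_eq_abs, abs_lt]
          constructor <;> linarith [hs.1, hs.2]
        · rw [dist_eq_norm, show q + s - 0 - q = (s : S) by abel]
          refine QuotientAddGroup.norm_mk_le_norm.trans_lt ?_
          rw [Real.norm_eq_abs, abs_lt]
          constructor <;> linarith [hs.1, hs.2]
      rw [a2, a3, tr_zero, c.one, hw, ← c.comm (c.lm u) c.trh (L_tr _ _ (Or.inr rfl))] at a1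
      exact c.ne hy ((σ (L 0 (lam α β u))).injective a1)
    refine ⟨q, hq2, ?_⟩
    rcases hq2 with h0 | h0
    · obtain ⟨n, h1, h2⟩ := ((eventually_ge_atTop n0).and (ev_line hy one_ne_zero)).exists
      rw [mul_one] at h2
      have := key n h1
      rw [h0, zero_add, ← h2] at this
      rw [h0, tr_zero, c.one]
      exact (V σ α β (n, 0)).injective this
    · obtain ⟨n, h1, h2⟩ := ((eventually_ge_atTop n0).and (ev_line (c.hy' hy) one_ne_zero)).exists
      rw [mul_one] at h2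
      have := key n h1
      rw [h0, ← h2] at this
      rw [h0]
      exact (V σ α β (n, 0)).injective this
  · exfalso
    simp only [not_forall] at hfree
    obtain ⟨N, hN, hN0⟩ := hfree
    have hall : ∀ m : ℤ, V σ α β (m * N, 0) w = w := by
      intro m
      have := const_of_succ (fun m : ℤ => V σ α β (m * N, 0) w) (fun m => by
        have e1 : (((m + 1) * N, 0) : ℤ × ℤ) = (m * N, 0) + (N, 0) := by simp [add_mul]
        simp only [e1]
        rw [← c.V_add, hN]) m 0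
      simp only [zero_mul] at this
      rw [this]
      exact c.V_zero w
    obtain ⟨m, hm⟩ := (ev_line (c.far0 hy 0 u) hN0).exists
    have a1 := hcm _ _ _ (d_T2 _ _ _) hm
    rw [lam_add, lam_add, lam_neg, ← sub_eq_add_neg, ← sub_eq_add_neg, L_conj, ← lam_neg,
      c.app (H.mul_mem (c.trm _) (c.Lm _ _)) (c.trm _), c.app (c.trm _) (c.Lm _ _)] at a1
    change V σ α β _ (σ _ (V σ α β (m * N, 0) w)) = _ at a1
    rw [hall, lam_zero, hinv] at a1
    have a2 : V σ α β (N, 0) (V σ α β (-(m * N, 0)) y) = V σ α β (-(m * N, 0)) y := by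
      rw [a1, c.V_tr _ (d_T2 _ _ _), hN]
    rw [c.V_add] at a2
    have := congrArg Prod.fst (c.free hy a2)
    simp at this
    exact hN0 this

end

theorem Ctx.false (c : Ctx α β H σ) : False := by
  obtain ⟨y, hy⟩ := c.exists_y
  choose g hg1 hg2 using c.step3 hy
  have hL : ∀ p q, σ (L (lam α β p) (lam α β q)) y = σ (tr (g p + g q)) y := by
    intro p q
    rw [L_split _ _ 0, c.app (c.lm p) (c.lm q), hg2 q,
      c.comm (c.lm p) (c.trT (hg1 q)) (L_tr _ _ (hg1 q)), hg2 p,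
      ← c.app (c.trT (hg1 q)) (c.trT (hg1 p)), ← tr_add, add_comm]
  have hstep : ∀ v : ℤ × ℤ, ∀ᶠ p in cofinite,
      g (p + v) + e (-lam α β (p + v)) = g p + e (-lam α β p) := by
    intro v
    filter_upwards [ev_map (c.far0 hy 0 v) neg_injective] with p hp
    rw [neg_neg, hL, zero_add] at hp
    have h1 := c.uniq hy ((hg1 _).add (hg1 _)) (d_T2 _ _ _) hp
    unfold d at h1
    rw [lam_zero, sub_zero, lam_neg, add_comm v p,
      show -lam α β p - lam α β v = -lam α β (p + v) by rw [lam_add]; abel] at h1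
    have h2 := (hg1 p).add_self
    have h3 := (e_T2 (-lam α β (p + v))).add_self
    calc g (p + v) + e (-lam α β (p + v))
        = g p + (g p + g (p + v)) + e (-lam α β (p + v)) := by rw [← add_assoc, h2, zero_add]
      _ = g p + e (-lam α β p) := by rw [h1, add_assoc, add_assoc, h3, add_zero]
  obtain ⟨x, hx⟩ := conn (fun p => g p + e (-lam α β p)) ((hstep (1, 0)).and (hstep (0, 1)))
  have hsym : ∀ p, g (-p) = g p := by
    intro p
    have hm : Equiv.neg S * L 0 (lam α β p) * Equiv.neg S ∈ H :=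
      H.mul_mem (H.mul_mem c.neg (c.lm p)) c.neg
    obtain ⟨k, hk⟩ : ∃ k, k = Equiv.neg S * L 0 (lam α β p) * Equiv.neg S := ⟨_, rfl⟩
    have hfin := L_neg (lam α β p)
    rw [← hk] at hm hfin
    obtain ⟨h1, h2⟩ := c.fin (k⁻¹ * L 0 (-lam α β p)) (hfin.subset fun x hx h => hx (by
      rw [Perm.mul_apply, h]; simp))
    have h3 := c.app hm h1 y
    rw [mul_inv_cancel_left, h2, ← lam_neg, hg2, hk, c.app (H.mul_mem c.neg (c.lm p)) c.neg,
      c.app c.neg (c.lm p), Perm.one_apply, c.neg_fix hy, hg2,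
      c.comm c.neg (c.trT (hg1 p)) (by
        ext x
        have := neg_eq_of_add_eq_zero_left (hg1 p).add_self
        simp [this]; abel), c.neg_fix hy] at h3
    exact c.uniq hy (hg1 _) (hg1 _) h3
  obtain ⟨p, h1, h2, h3⟩ := (hx.and ((ev_map hx neg_injective).and (c.ev T2_fin 0))).exists
  rw [zero_add] at h3
  rw [hsym, lam_neg, neg_neg, ← h1, e_neg h3] at h2
  exact hf_ne (by simpa using h2)

end Pool.Agent.H.MP_f6bc98_an
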