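import Pool.Agent.H.MP_f6bc98_an.B

set_option autoImplicit false

open Filter Set Topology Equiv

namespace Pool.Agent.H.MP_f6bc98_an

open Pool.Agent.H.MP_ad338c_an (S tr FS fin_of_eq)

def PI (f : Perm S) : Prop :=
  ∃ F : Set S, F.Finite ∧ ∀ x ∉ F, ∃ c : S,
    (∀ᶠ y in 𝓝 x, f y = y + c) ∨ (∀ᶠ y in 𝓝 x, f y = -y + c)

lemma PI_tr (a : S) : PI (tr a) :=
  ⟨∅, finite_empty, fun _ _ => ⟨a, Or.inl (Eventually.of_forall fun _ => rfl)⟩⟩

lemma PI_neg : PI (Equiv.neg S) :=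
  ⟨∅, finite_empty, fun _ _ => ⟨0, Or.inr (Eventually.of_forall fun y => by simp)⟩⟩

lemma PI_L (u : S) : PI (L 0 u) := by
  refine ⟨_, T2_fin.union (T2_fin.preimage (f := fun x => x - u) (sub_left_injective).injOn),
    fun x hx => ⟨d 0 u x, Or.inl ?_⟩⟩
  simp only [mem_union, mem_ofPred_eq, mem_preimage, not_or] at hx
  have hc : ContinuousAt (fun y : S => y - u) x := by fun_prop
  filter_upwards [e_loc hx.1, hc.eventually (e_loc hx.2)] with y h1 h2
  rw [L_apply, d, d, sub_zero, sub_zero, h1, h2]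

lemma exists_ind : ∃ α β : S, ∀ p, lam α β p = 0 → p = 0 := by
  have hc : (range fun q : ℤ × ℤ × ℤ => ((q.1 : ℝ) - q.2.1 * √2) / q.2.2).Countable :=
    countable_range _
  obtain ⟨b, hb⟩ : ∃ b, b ∉ range fun q : ℤ × ℤ × ℤ => ((q.1 : ℝ) - q.2.1 * √2) / q.2.2 := by
    by_contra h
    push Not at h
    exact Cardinal.not_countable_real (hc.mono fun x _ => h x)
  refine ⟨((√2 : ℝ) : S), (b : S), ?_⟩
  rintro ⟨m, n⟩ h
  simp only [lam] at h
  rw [← AddCircle.coe_zsmul, ← AddCircle.coe_zsmul, ← AddCircle.coe_add,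
    AddCircle.coe_eq_zero_iff] at h
  obtain ⟨k, hk⟩ := h
  simp only [zsmul_eq_mul, mul_one] at hk
  have hn : n = 0 := by
    by_contra hn
    have : (n : ℝ) ≠ 0 := by exact_mod_cast hn
    exact hb ⟨(k, m, n), by simp only; field_simp; linarith⟩
  have hm : m = 0 := by
    by_contra hm
    have := irrational_sqrt_two.intCast_mul hm
    rw [hn] at hk
    simp only [Int.cast_zero, zero_mul, add_zero] at hk
    rw [← hk] at this
    exact Int.not_irrational k this
  simp [hm, hn]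

def P (ε : ℤ) (c : S) (f : Perm S) : Prop :=
  (∀ x, f (x + hf) = f x + hf) ∧ ∀ x, f x + f x = ε • (x + x) + c

lemma P.mul {ε ε' : ℤ} {c c' : S} {f g : Perm S} (h : P ε c f) (h' : P ε' c' g) :
    P (ε * ε') (ε • c' + c) (f * g) :=
  ⟨fun x => by rw [Perm.mul_apply, h'.1, h.1]; rfl, fun x => by
    rw [Perm.mul_apply, h.2, h'.2, smul_add, smul_smul, add_assoc]⟩

lemma P.inv {ε : ℤ} {c : S} {f : Perm S} (h : P ε c f) (he : ε * ε = 1) :
    P ε (-(ε • c)) f⁻¹ :=
  ⟨fun x => by rw [Perm.inv_eq_iff_eq, h.1]; simp, fun x => by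
    have := h.2 (f⁻¹ x)
    rw [show f (f⁻¹ x) = x by simp] at this
    rw [this, smul_add, smul_smul, he, one_smul, add_neg_cancel_right]⟩

def G0 : Subgroup (Perm S) where
  carrier := {f | ∃ ε c, ε * ε = 1 ∧ P ε c f}
  one_mem' := ⟨1, 0, by simp, fun _ => rfl, fun _ => by simp⟩
  mul_mem' := by
    rintro f g ⟨ε, c, h1, h2⟩ ⟨ε', c', h3, h4⟩
    exact ⟨_, _, by linear_combination ε' * ε' * h1 + h3, h2.mul h4⟩
  inv_mem' := by
    rintro f ⟨ε, c, h1, h2⟩
    exact ⟨_, _, h1, h2.inv h1⟩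

def G1 : Subgroup (Perm S) where
  carrier := {f | ∃ c, P 1 c f}
  one_mem' := ⟨0, fun _ => rfl, fun _ => by simp⟩
  mul_mem' := by
    rintro f g ⟨c, h2⟩ ⟨c', h4⟩
    exact ⟨_, by simpa using h2.mul h4⟩
  inv_mem' := by
    rintro f ⟨c, h2⟩
    exact ⟨_, h2.inv (by simp)⟩

def G2 : Subgroup (Perm S) where
  carrier := {f | P 1 0 f}
  one_mem' := ⟨fun _ => rfl, fun _ => by simp⟩
  mul_mem' := by
    rintro f g h2 h4
    simpa using P.mul h2 h4
  inv_mem' := by
    rintro f h2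
    simpa using P.inv h2 (by simp)

lemma c01 : ⁅G0, G0⁆ ≤ G1 := by
  rw [Subgroup.commutator_le]
  rintro f ⟨ε, c, h1, h2⟩ g ⟨ε', c', h3, h4⟩
  have := ((h2.mul h4).mul (h2.inv h1)).mul (h4.inv h3)
  rw [show ε * ε' * ε * ε' = 1 by linear_combination ε' * ε' * h1 + h3] at this
  exact ⟨_, this⟩

lemma c12 : ⁅G1, G1⁆ ≤ G2 := by
  rw [Subgroup.commutator_le]
  rintro f ⟨c, h2⟩ g ⟨c', h4⟩
  have := ((h2.mul h4).mul (h2.inv (by simp))).mul (h4.inv (by simp))
  simp only [mul_one, one_smul] at this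
  rw [show -c' + (-c + (c' + c)) = 0 by abel] at this
  exact this

lemma c23 : ⁅G2, G2⁆ ≤ ⊥ := by
  rw [Subgroup.commutator_le]
  intro f h2 g h4
  have key : ∀ k : Perm S, P 1 0 k → ∀ x, k x = x ∨ k x = x + hf := by
    intro k hk x
    have : T2 (k x - x) := T2_of (by
      have := hk.2 x
      rw [one_smul, add_zero] at this
      rw [show k x - x + (k x - x) = k x + k x - (x + x) by abel, this, sub_self])
    rcases this with h | h
    · exact Or.inl (sub_eq_zero.1 h)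
    · exact Or.inr (by rw [← h]; abel)
  rw [Subgroup.mem_bot, commutatorElement_eq_one_iff_mul_comm]
  ext x
  simp only [Perm.mul_apply]
  rcases key f h2 x with a | a <;> rcases key g h4 x with b | b
  · rw [a, b, a]
  · rw [a, b, h2.1, a]
  · rw [a, b, a, h4.1, b]
  · rw [a, b, h2.1, h4.1, a, b]

lemma solv {Γ : Subgroup (Perm S ⧸ FS)} (h : Γ ≤ G0.map (QuotientGroup.mk' FS)) :
    Group.IsSolvable Γ := by
  have step : ∀ (n : ℕ) (A B : Subgroup (Perm S)), ⁅A, A⁆ ≤ B →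
      (derivedSeries Γ n).map Γ.subtype ≤ A.map (QuotientGroup.mk' FS) →
      (derivedSeries Γ (n + 1)).map Γ.subtype ≤ B.map (QuotientGroup.mk' FS) := by
    intro n A B hAB h
    rw [derivedSeries_succ, Subgroup.map_commutator]
    refine (Subgroup.commutator_mono h h).trans ?_
    rw [← Subgroup.map_commutator]
    exact Subgroup.map_mono hAB
  have h0 : (derivedSeries Γ 0).map Γ.subtype ≤ G0.map (QuotientGroup.mk' FS) := by
    rintro _ ⟨a, -, rfl⟩
    exact h a.2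
  have h3 := step 2 _ _ c23 (step 1 _ _ c12 (step 0 _ _ c01 h0))
  rw [Subgroup.map_bot, le_bot_iff, Subgroup.map_eq_bot_iff_of_injective _ Γ.subtype_injective] at h3
  exact ⟨⟨3, h3⟩⟩

theorem main : ∃ T : Set (Perm S), T.Finite ∧ (∀ f ∈ T, PI f) ∧
    Group.IsSolvable (Subgroup.closure (QuotientGroup.mk '' T : Set (Perm S ⧸ FS))) ∧
    ¬ ∃ s : Perm S ⧸ FS → Perm S,
      (∀ a ∈ Subgroup.closure (QuotientGroup.mk '' T : Set (Perm S ⧸ FS)),
        ∀ b ∈ Subgroup.closure (QuotientGroup.mk '' T : Set (Perm S ⧸ FS)),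
          s (a * b) = s a * s b) ∧
      ∀ a ∈ Subgroup.closure (QuotientGroup.mk '' T : Set (Perm S ⧸ FS)),
        QuotientGroup.mk (s a) = a := by
  obtain ⟨α, β, hind⟩ := exists_ind
  obtain ⟨T, hT⟩ : ∃ T : Set (Perm S), T = {tr α, tr β, tr hf, Equiv.neg S, L 0 α, L 0 β} :=
    ⟨_, rfl⟩
  refine ⟨T, hT ▸ Set.toFinite _, ?_, solv ?_, ?_⟩
  · rw [hT]
    rintro _ (rfl | rfl | rfl | rfl | rfl | rfl)
    exacts [PI_tr _, PI_tr _, PI_tr _, PI_neg, PI_L _, PI_L _]
  · have h1 : ∀ a : S, tr a ∈ G0 := fun a =>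
      ⟨1, a + a, by simp, fun x => by simp; abel, fun x => by simp; abel⟩
    have h2 : ∀ u : S, L 0 u ∈ G0 := fun u =>
      ⟨1, 0, by simp, fun x => by
        rw [L_apply, L_apply, d_add _ _ _ (Or.inr rfl)]; abel, fun x => by
        rw [L_apply, add_add_add_comm, (d_T2 _ _ _).add_self]; simp⟩
    have h3 : Equiv.neg S ∈ G0 :=
      ⟨-1, 0, by simp, fun x => by simp [neg_hf]; abel, fun x => by simp⟩
    rw [Subgroup.closure_le, hT]
    rintro _ ⟨f, hf, rfl⟩
    refine ⟨f, ?_, rfl⟩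
    rcases hf with (rfl | rfl | rfl | rfl | rfl | rfl)
    exacts [h1 _, h1 _, h1 _, h3, h2 _, h2 _]
  · rintro ⟨s, hs1, hs2⟩
    let H : Subgroup (Perm S) :=
      (Subgroup.closure (QuotientGroup.mk '' T : Set (Perm S ⧸ FS))).comap (QuotientGroup.mk' FS)
    have hTH : ∀ f ∈ T, f ∈ H := fun f hf => Subgroup.subset_closure ⟨f, hf, rfl⟩
    let Λ : AddSubgroup S :=
      { carrier := {u | tr u ∈ H ∧ L 0 u ∈ H}
        zero_mem' := ⟨tr_zero ▸ H.one_mem, by
          rw [L_split 0 0 α, L_symm α 0]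
          exact H.mul_mem (hTH _ (by simp [hT])) (hTH _ (by simp [hT]))⟩
        add_mem' := by
          rintro u v ⟨h1, h2⟩ ⟨h3, h4⟩
          refine ⟨tr_add u v ▸ H.mul_mem h1 h3, ?_⟩
          have := L_conj 0 v (-u)
          rw [neg_neg, zero_sub, neg_neg, sub_neg_eq_add, add_comm v u] at this
          rw [L_split 0 (u + v) u, L_symm u 0, this]
          have h5 : tr (-u) ∈ H := by
            have h6 : tr (-u) = (tr u)⁻¹ := eq_inv_of_mul_eq_one_left (by
              rw [← tr_add, neg_add_cancel, tr_zero])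
            exact h6 ▸ H.inv_mem h1
          exact H.mul_mem h2 (H.mul_mem (H.mul_mem h1 h4) h5)
        neg_mem' := by
          rintro u ⟨h1, h2⟩
          have h5 : tr (-u) ∈ H := by
            have h6 : tr (-u) = (tr u)⁻¹ := eq_inv_of_mul_eq_one_left (by
              rw [← tr_add, neg_add_cancel, tr_zero])
            exact h6 ▸ H.inv_mem h1
          refine ⟨h5, ?_⟩
          have := L_conj 0 u u
          rw [zero_sub, sub_self] at this
          rw [L_symm, this]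
          exact H.mul_mem (H.mul_mem h5 h2) h1 }
    have hα : α ∈ Λ := ⟨hTH _ (by simp [hT]), hTH _ (by simp [hT])⟩
    have hβ : β ∈ Λ := ⟨hTH _ (by simp [hT]), hTH _ (by simp [hT])⟩
    have hl : ∀ p, lam α β p ∈ Λ := fun p =>
      Λ.add_mem (Λ.zsmul_mem hα _) (Λ.zsmul_mem hβ _)
    have hone : s 1 = 1 := by
      have := hs1 1 (one_mem _) 1 (one_mem _)
      rw [mul_one] at this
      exact left_eq_mul.1 this
    refine Ctx.false (α := α) (β := β) (H := H) (σ := fun f => s (QuotientGroup.mk f))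
      ⟨hind, fun f hf g hg => hs1 _ hf _ hg, fun f hf => fin_of_eq (hs2 _ hf), fun f hf => ?_,
        fun p => (hl p).1, hTH _ (by simp [hT]), hTH _ (by simp [hT]), fun p => (hl p).2⟩
    have h1 : (QuotientGroup.mk f : Perm S ⧸ FS) = 1 :=
      (QuotientGroup.eq_one_iff f).2 (Subgroup.subset_normalClosure hf)
    refine ⟨?_, by simp only [h1, hone]⟩
    change (QuotientGroup.mk f : Perm S ⧸ FS) ∈
      Subgroup.closure (QuotientGroup.mk '' T : Set (Perm S ⧸ FS))
    rw [h1]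
    exact one_mem _

end Pool.Agent.H.MP_f6bc98_an
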